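import Mathlib

namespace Pool.Agent.H.MP_d2ef9c_co

/-- the triangular grid `T_n` -/
def T (n : ℕ) : SimpleGraph {p : Fin (n + 1) × Fin (n + 1) // p.1.val + p.2.val ≤ n} :=
  SimpleGraph.fromRel fun a b =>
    (a.1.2.val = b.1.2.val ∧ a.1.1.val = b.1.1.val + 1) ∨
    (a.1.1.val = b.1.1.val ∧ a.1.2.val = b.1.2.val + 1) ∨
    (a.1.1.val = b.1.1.val + 1 ∧ b.1.2.val = a.1.2.val + 1)

/-- every connected component of `G[S]` is complete -/
def Indeque {V : Type} (G : SimpleGraph V) (S : Set V) : Prop :=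
  ∀ a b : S, (G.induce S).Reachable a b → a = b ∨ (G.induce S).Adj a b

/-- the indeque number -/
noncomputable def indNum {V : Type} (G : SimpleGraph V) : ℕ :=
  sSup {k | ∃ S : Finset V, Indeque G S ∧ S.card = k}

end Pool.Agent.H.MP_d2ef9c_co
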